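import Mathlib.Combinatorics.SimpleGraph.Finite
import Mathlib.Data.Fintype.Prod
import Mathlib.Data.Fintype.Sum
import Mathlib.Data.Fintype.Basic
import Mathlib.Data.List.Chain
import Mathlib.Order.ConditionallyCompleteLattice.Basic
import Mathlib.Tactic

/-!
# A 7-regular graph with `γ_t < 2 π`

Take seven copies `C_0, ..., C_6` of `K_8` minus an edge `a_i b_i` and two further vertices `x`, `y`
where `x` is adjacent to all `a_i` and `y` to all `b_i`.  This graph is 7-regular with 58 vertices.
The set `{x, y, a_0, ..., a_5, b_6}` is total dominating, so `γ_t ≤ 9`.  Deleting `x` and `y` cuts a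
path cover with `m` paths into at most `m + 2` paths, each of which lies in one of the seven
components, so `m ≥ 5` and `2 π ≥ 10`.
-/

set_option autoImplicit false

namespace Pool.Agent.Results.MP_f6a359_co.SevenRegular

/-- `S` is a total dominating set. -/
def IsTotalDominating {V : Type} (G : SimpleGraph V) (S : Finset V) : Prop :=
  ∀ v : V, ∃ w ∈ S, G.Adj v w

/-- The total domination number. -/
noncomputable def totalDomNum {V : Type} (G : SimpleGraph V) : ℕ :=
  sInf {k | ∃ S : Finset V, IsTotalDominating G S ∧ S.card = k}

/-- `P` is a path cover of `G`: a list of paths of `G` (nonempty lists of vertices with consecutive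
vertices adjacent) which are vertex-disjoint and without repeated vertices, and cover all
vertices. -/
def IsPathCover {V : Type} (G : SimpleGraph V) (P : List (List V)) : Prop :=
  (∀ l ∈ P, l ≠ [] ∧ l.IsChain G.Adj) ∧ P.flatten.Nodup ∧ ∀ v : V, v ∈ P.flatten

/-- The path covering number. -/
noncomputable def pathCoverNum {V : Type} (G : SimpleGraph V) : ℕ :=
  sInf {k | ∃ P : List (List V), IsPathCover G P ∧ P.length = k}

/-- the vertices: two hubs, and seven components with eight vertices each -/
abbrev W := Fin 2 ⊕ (Fin 7 × Fin 8)

/-- adjacency as a Boolean function -/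
def adj : W → W → Bool
  | .inl _, .inl _ => false
  | .inl h, .inr (_, b) => decide (h.val = b.val)
  | .inr (_, b), .inl h => decide (h.val = b.val)
  | .inr (i, a), .inr (j, b) => decide (i = j) && decide (a ≠ b) && !(decide (a.val + b.val = 1))

theorem adj_symm (u v : W) : adj u v = adj v u := by
  rcases u with h | ⟨i, a⟩ <;> rcases v with h' | ⟨j, b⟩
  · rfl
  · rfl
  · rfl
  · simp only [adj, eq_comm (a := i), ne_comm (a := a), Nat.add_comm a.val]

theorem adj_irrefl (u : W) : adj u u = false := by
  rcases u with h | ⟨i, a⟩ <;> simp [adj]

/-- the graph -/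
def G : SimpleGraph W where
  Adj u v := adj u v = true
  symm := ⟨fun u v h => by rw [adj_symm]; exact h⟩
  loopless := ⟨fun u h => by rw [adj_irrefl] at h; exact Bool.false_ne_true h⟩

instance : DecidableRel G.Adj := fun u v => inferInstanceAs (Decidable (adj u v = true))

theorem regular : G.IsRegularOfDegree 7 := by
  unfold SimpleGraph.IsRegularOfDegree
  decide +kernel

/-- a total dominating set -/
def S : Finset W := {.inl 0, .inl 1, .inr (0, 0), .inr (1, 0), .inr (2, 0), .inr (3, 0),
  .inr (4, 0), .inr (5, 0), .inr (6, 1)}

theorem S_dom : IsTotalDominating G S := by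
  unfold IsTotalDominating
  decide +kernel

theorem totalDomNum_le : totalDomNum G ≤ 9 := Nat.sInf_le ⟨S, S_dom, by decide⟩

/-- the component of a vertex -/
def comp : W → Option (Fin 7)
  | .inl _ => none
  | .inr (i, _) => some i

/-- is the vertex a hub? -/
def isHub : W → Bool
  | .inl _ => true
  | .inr _ => false

/-- the components visited by a list of vertices -/
def comps (l : List W) : Finset (Fin 7) := (l.filterMap comp).toFinset

theorem comps_append (l m : List W) : comps (l ++ m) = comps l ∪ comps m := by
  simp [comps]

theorem comps_hub (h : Fin 2) (l : List W) : comps (.inl h :: l) = comps l := rfl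

theorem comps_comp (i : Fin 7) (a : Fin 8) (l : List W) :
    comps (.inr (i, a) :: l) = insert i (comps l) := by
  simp [comps, comp]

theorem chain_bound : ∀ l : List W, l.IsChain G.Adj →
    (comps l).card ≤ 1 + l.countP isHub ∧
    (∀ h m, l = .inl h :: m → (comps l).card ≤ l.countP isHub) := by
  intro l
  induction l with
  | nil =>
    intro _
    exact ⟨by simp [comps], by simp⟩
  | cons v l ih =>
    intro hl
    have hl' : l.IsChain G.Adj := hl.tail
    obtain ⟨ih1, ih2⟩ := ih hl'
    rcases v with h | ⟨i, a⟩
    · have hB : (comps (.inl h :: l)).card ≤ (.inl h :: l : List W).countP isHub := by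
        rw [comps_hub, List.countP_cons]
        simp only [isHub, if_true]
        omega
      exact ⟨by omega, fun _ _ _ => hB⟩
    · refine ⟨?_, fun h m hm => by simp at hm⟩
      rw [comps_comp, List.countP_cons]
      simp only [isHub, Bool.false_eq_true, if_false, add_zero]
      cases l with
      | nil => simp [comps]
      | cons w l =>
        rcases w with h | ⟨j, b⟩
        · have := ih2 h l rfl
          have h2 := Finset.card_insert_le i (comps (.inl h :: l))
          omega
        · have hadj : G.Adj (.inr (i, a)) (.inr (j, b)) := by
            rw [List.isChain_cons_cons] at hl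
            exact hl.1
          have hij : i = j := by
            have h1 : adj (.inr (i, a)) (.inr (j, b)) = true := hadj
            simp only [adj, Bool.and_eq_true, decide_eq_true_eq] at h1
            exact h1.1.1
          subst hij
          have : insert i (comps (.inr (i, b) :: l)) = comps (.inr (i, b) :: l) := by
            rw [comps_comp, Finset.insert_idem]
          rw [this]
          exact ih1

theorem cover_bound : ∀ P : List (List W), (∀ l ∈ P, l ≠ [] ∧ l.IsChain G.Adj) →
    (comps P.flatten).card ≤ P.length + P.flatten.countP isHub := by
  intro P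
  induction P with
  | nil => intro _; simp [comps]
  | cons l P ih =>
    intro h
    have h1 := (chain_bound l (h l (by simp)).2).1
    have h2 := ih (fun m hm => h m (by simp [hm]))
    rw [List.flatten_cons, comps_append, List.countP_append, List.length_cons]
    have h3 := Finset.card_union_le (comps l) (comps P.flatten)
    omega

theorem hub_count (l : List W) (hl : l.Nodup) : l.countP isHub ≤ 2 := by
  rw [List.countP_eq_length_filter]
  have h1 : (l.filter isHub).Nodup := hl.filter _
  rw [← List.toFinset_card_of_nodup h1]
  have h2 : (l.filter isHub).toFinset ⊆ Finset.univ.image (fun h : Fin 2 => (.inl h : W)) := by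
    intro v hv
    rw [List.mem_toFinset, List.mem_filter] at hv
    rcases v with h | x
    · simp
    · exact absurd hv.2 (by simp [isHub])
  exact (Finset.card_le_card h2).trans (Finset.card_image_le.trans (by simp))

theorem le_pathCoverNum : 5 ≤ pathCoverNum G := by
  unfold pathCoverNum
  apply le_csInf
  · refine ⟨_, (Finset.univ : Finset W).toList.map (fun v => [v]), ⟨?_, ?_, ?_⟩, rfl⟩
    · intro l hl
      rw [List.mem_map] at hl
      obtain ⟨v, _, rfl⟩ := hl
      exact ⟨by simp, by simp⟩
    · have : ∀ l : List W, (l.map (fun v => [v])).flatten = l := by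
        intro l
        induction l with
        | nil => rfl
        | cons a l ih => simp [ih]
      rw [this]
      exact Finset.nodup_toList _
    · intro v
      rw [List.mem_flatten]
      exact ⟨[v], by simp, by simp⟩
  · rintro k ⟨P, ⟨h1, h2, h3⟩, rfl⟩
    have h4 := cover_bound P h1
    have h5 := hub_count _ h2
    have h6 : comps P.flatten = Finset.univ := by
      ext i
      simp only [Finset.mem_univ, iff_true]
      unfold comps
      rw [List.mem_toFinset, List.mem_filterMap]
      exact ⟨.inr (i, 0), h3 _, rfl⟩
    rw [h6] at h4
    simp only [Finset.card_univ, Fintype.card_fin] at h4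
    omega

/-- There is a finite `7`-regular graph `G` with `γ_t(G) < 2 π(G)`. -/
theorem result : ∃ (V : Type) (_ : Fintype V) (G : SimpleGraph V) (_ : DecidableRel G.Adj),
    G.IsRegularOfDegree 7 ∧ totalDomNum G < 2 * pathCoverNum G := by
  refine ⟨W, inferInstance, G, inferInstance, regular, ?_⟩
  have h1 := totalDomNum_le
  have h2 := le_pathCoverNum
  omega

end Pool.Agent.Results.MP_f6a359_co.SevenRegular
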